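import Mathlib
import Pool.Agent.TH336.FE.Two

/-!
# Continuous solutions of `f (x + f x) = f x + f (f x)`

A continuous function `f : ℝ → ℝ` satisfies the equation for all real `x` exactly when it is
linear with slope `a` on the nonnegative half-line, linear with slope `b` on the nonpositive
half-line, and either `a = b` or both slopes are nonnegative.
-/

theorem Pool.Agent.Results.MP_12983e_an.Classification.result :
    ∀ f : ℝ → ℝ, Continuous f →
      ((∀ x : ℝ, f (x + f x) = f x + f (f x)) ↔
        ∃ a b : ℝ, (a = b ∨ (0 ≤ a ∧ 0 ≤ b)) ∧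
          ∀ x : ℝ, f x = if 0 ≤ x then a * x else b * x) := by
  intro f hf
  constructor
  · intro h
    obtain ⟨a, b, hab, h1, h2⟩ := Pool.Agent.TH336.FE.Sol.classify (f := f) ⟨hf, h⟩
    refine ⟨a, b, hab, fun x => ?_⟩
    by_cases hx : 0 ≤ x
    · rw [if_pos hx]
      exact h1 x hx
    · rw [if_neg hx]
      exact h2 x (le_of_not_ge hx)
  · rintro ⟨a, b, hab, hf'⟩ x
    have hp : ∀ y, 0 ≤ y → f y = a * y := fun y hy => by rw [hf' y, if_pos hy]
    have hn : ∀ y, y < 0 → f y = b * y := fun y hy => by rw [hf' y, if_neg (not_le.mpr hy)]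
    rcases hab with rfl | ⟨ha, hb⟩
    · have hl : ∀ y, f y = a * y := fun y => by
        rcases le_or_gt 0 y with hy | hy
        · exact hp y hy
        · exact hn y hy
      simp only [hl]
      ring
    · rcases le_or_gt 0 x with hx | hx
      · have h1 : f x = a * x := hp x hx
        have h2 : 0 ≤ a * x := mul_nonneg ha hx
        rw [h1, hp (a * x) h2, hp (x + a * x) (add_nonneg hx h2)]
        ring
      · have h1 : f x = b * x := hn x hx
        have h2 : b * x ≤ 0 := mul_nonpos_of_nonneg_of_nonpos hb hx.le
        have h3 : f (b * x) = b * (b * x) := by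
          rcases eq_or_lt_of_le h2 with h | h
          · rw [h, hp 0 le_rfl, mul_zero, mul_zero]
          · exact hn _ h
        rw [h1, h3, hn (x + b * x) (add_neg_of_neg_of_nonpos hx h2)]
        ring
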